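import Pool.Agent.Q146.TrBlow.Main

/-!
# Polynomial stability for `T_r[t]`-free digraphs of large out-degree

A digraph on the finite type `V` is a relation `A : V → V → Prop` (`A u v`: there is an arc
`u → v`; anti-parallel arcs are allowed) with `∀ v, ¬ A v v` (no loops).
-/

set_option autoImplicit false

namespace Pool.Agent.Results.MP_cbc67c_co.PolynomialStability

/-- `A` contains the blow-up `T_r[t]` of the transitive tournament on `r` vertices: there are
distinct vertices `f (i, a)` (`i < r`, `a < t`) with an arc from `f (i, a)` to `f (j, b)` for all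
`i < j` and all `a`, `b`. -/
def ContainsBlowup (r t : ℕ) {V : Type} (A : V → V → Prop) : Prop :=
  ∃ f : Fin r × Fin t → V, Function.Injective f ∧ ∀ p q, p.1 < q.1 → A (f p) (f q)

/-- The digraph `A` becomes `k`-partite after deleting the arcs in `B`. -/
def PartiteAfterDeleting (k : ℕ) {V : Type} (A : V → V → Prop) (B : Set (V × V)) : Prop :=
  ∃ p : V → Fin k, ∀ u v, A u v → (u, v) ∉ B → p u ≠ p v

/-- For all `r ≥ 3`, `t ≥ 1` and every `0 < α < 1 / t ^ r`: for every `ε > 0` there are `C` and `n₀`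
such that every `T_r[t]`-free digraph on `n ≥ n₀` vertices with minimum out-degree at least
`((3 r - 7) / (3 r - 4) + ε) n` becomes `(r - 1)`-partite after deleting at most
`C n ^ (2 - α)` arcs. -/
theorem result (r t : ℕ) (hr : 3 ≤ r) (ht : 1 ≤ t) (α : ℝ) (hα : 0 < α)
    (hα' : α < 1 / (t : ℝ) ^ r) :
    ∀ ε : ℝ, 0 < ε → ∃ (C : ℝ) (n₀ : ℕ), ∀ (V : Type) [Fintype V] (A : V → V → Prop),
      (∀ v, ¬ A v v) → n₀ ≤ Fintype.card V → ¬ ContainsBlowup r t A →
      (∀ v, ((3 * (r : ℝ) - 7) / (3 * r - 4) + ε) * Fintype.card V ≤ ({w | A v w}.ncard : ℝ)) →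
      ∃ B : Set (V × V), (∀ e ∈ B, A e.1 e.2) ∧
        (B.ncard : ℝ) ≤ C * (Fintype.card V : ℝ) ^ (2 - α) ∧ PartiteAfterDeleting (r - 1) A B := by
  classical
  obtain ⟨q, rfl⟩ : ∃ q, r = q + 3 := ⟨r - 3, by omega⟩
  intro ε hε
  obtain ⟨C, n₀, h⟩ := Q146.TB.main q t ht α hα hα' ε hε
  refine ⟨C, n₀, ?_⟩
  intro V _ A hl hn hfree hdeg
  have hc : (3 * ((q + 3 : ℕ) : ℝ) - 7) / (3 * ((q + 3 : ℕ) : ℝ) - 4) = (3*q+2:ℝ)/(3*q+5) := by
    push_cast
    congr 1 <;> ring
  have hdeg' : ∀ v, ((3*q+2:ℝ)/(3*q+5) + ε) * Fintype.card V ≤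
      ((Finset.univ.filter (A v)).card : ℝ) := by
    intro v
    have := hdeg v
    rw [hc] at this
    have e : {w | A v w}.ncard = (Finset.univ.filter (A v)).card := by
      rw [← Set.ncard_coe_finset]
      congr 1
      ext w
      simp
    rwa [e] at this
  obtain ⟨p, hp⟩ := h V A hl hn hfree hdeg'
  refine ⟨{e | A e.1 e.2 ∧ p e.1 = p e.2}, fun e he => he.1, ?_, p, ?_⟩
  · have e : {e : V × V | A e.1 e.2 ∧ p e.1 = p e.2}.ncard =
        (Finset.univ.filter (fun e : V × V => A e.1 e.2 ∧ p e.1 = p e.2)).card := by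
      rw [← Set.ncard_coe_finset]
      congr 1
      ext w
      simp
    rw [e]
    exact hp
  · intro u v huv hB heq
    exact hB ⟨huv, heq⟩

end Pool.Agent.Results.MP_cbc67c_co.PolynomialStability
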